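import Pool.Agent.N343.AS.Stm

set_option autoImplicit false

/-!
# Project AS of helper343, leaf POS: choice of copies at one position (helper914)
-/

namespace Pool.Agent.N914.AS

open Finset Pool.Agent.N343.AS

/-- from natural numbers to `Fin` -/
lemma transfer {B ν : ℕ} {g : ℕ → ℝ} {s : ℝ} (S : Finset ℕ) (hS : ∀ k ∈ S, k < B)
    (hc : S.card = ν) (hs : ∑ k ∈ S, g k = s) :
    ∃ S : Finset (Fin B), S.card = ν ∧ ∑ k ∈ S, g k = s := by
  have h : (univ.filter (fun k : Fin B => (k : ℕ) ∈ S)).map Fin.valEmbedding = S := by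
    ext k
    simp only [mem_map, mem_filter, mem_univ, true_and, Fin.valEmbedding_apply]
    constructor
    · rintro ⟨a, ha, rfl⟩
      exact ha
    · intro hk
      exact ⟨⟨k, hS k hk⟩, hk, rfl⟩
  refine ⟨univ.filter (fun k : Fin B => (k : ℕ) ∈ S), ?_, ?_⟩
  · rw [← hc]
    conv_rhs => rw [← h]
    rw [card_map]
  · rw [← hs]
    conv_rhs => rw [← h]
    rw [sum_map]
    rfl

lemma cls_even (N i m : ℕ) : cls N i (2 * m) =
    if m = 0 then sh i else if m < 2 ^ i then (m : ℝ) * 2 ^ (N - i) else 0 := by
  unfold cls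
  have h1 : 2 * m % 2 = 0 := by omega
  have h2 : 2 * m / 2 = m := by omega
  rw [h1, h2, if_pos rfl, one_mul]

lemma cls_odd (N i m : ℕ) : cls N i (2 * m + 1) = - cls N i (2 * m) := by
  rw [cls_even]
  unfold cls
  have h1 : (2 * m + 1) % 2 ≠ 0 := by omega
  have h2 : (2 * m + 1) / 2 = m := by omega
  rw [if_neg h1, h2, neg_one_mul]

lemma cls_big (N i k : ℕ) (hk : 2 ^ (i + 1) ≤ k) : cls N i k = 0 := by
  unfold cls
  have h0 : 1 ≤ 2 ^ i := Nat.one_le_two_pow
  have h1 : ¬ k / 2 = 0 := by
    rw [pow_succ] at hk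
    omega
  have h2 : ¬ k / 2 < 2 ^ i := by
    rw [pow_succ] at hk
    omega
  rw [if_neg h1, if_neg h2, mul_zero]

lemma sum_pairs (N i m : ℕ) : ∑ k ∈ range (2 * m), cls N i k = 0 := by
  induction m with
  | zero => simp
  | succ m ih =>
    rw [show 2 * (m + 1) = 2 * m + 1 + 1 by ring, sum_range_succ, sum_range_succ, ih, cls_odd]
    ring

theorem main : S_POS := by
  intro N i _
  have hb : 2 ^ (i + 4) = 8 * 2 ^ (i + 1) := by
    rw [show i + 4 = (i + 1) + 3 by ring, pow_add]
    ring
  have hb1 : 2 ^ (i + 1) = 2 * 2 ^ i := by rw [pow_succ]; ring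
  have h0 : 1 ≤ 2 ^ i := Nat.one_le_two_pow
  constructor
  · intro ν hν
    rcases Nat.even_or_odd' ν with ⟨m, rfl | rfl⟩
    · exact transfer (g := cls N i) (range (2 * m)) (fun k hk => (mem_range.1 hk).trans_le hν)
        (card_range _) (sum_pairs N i m)
    · have hn : 2 ^ (i + 4) - 2 ∉ range (2 * m) := by
        rw [mem_range]
        omega
      refine transfer (g := cls N i) (insert (2 ^ (i + 4) - 2) (range (2 * m))) ?_ ?_ ?_
      · intro k hk
        rw [mem_insert, mem_range] at hk
        omega
      · rw [card_insert_of_notMem hn, card_range]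
      · rw [sum_insert hn, sum_pairs, cls_big N i _ (by omega), add_zero]
  · intro ν h1 h2 σ hσ r hr
    -- the special indices
    obtain ⟨F, hF1, hF2, hF3⟩ : ∃ F : Finset ℕ, (∀ k ∈ F, k < 2 ^ (i + 1)) ∧ F.card ≤ 2 ∧
        ∑ k ∈ F, cls N i k = σ * sh i + r * 2 ^ (N - i) := by
      -- the first part
      obtain ⟨F₁, g1, g2, g3⟩ : ∃ F : Finset ℕ, (∀ k ∈ F, k < 2) ∧ F.card ≤ 1 ∧
          ∑ k ∈ F, cls N i k = σ * sh i := by
        have hc : σ = 1 ∨ σ = -1 ∨ σ = 0 := by
          have := abs_le.1 hσ
          omega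
        have e0 : cls N i 0 = sh i := by
          have := cls_even N i 0
          simpa using this
        rcases hc with rfl | rfl | rfl
        · exact ⟨{0}, by simp, by simp, by simp [e0]⟩
        · refine ⟨{1}, by simp, by simp, ?_⟩
          have := cls_odd N i 0
          simp only [mul_zero, zero_add] at this
          simp [this, e0]
        · exact ⟨∅, by simp, by simp, by simp⟩
      rcases Nat.eq_zero_or_pos r with rfl | hr0
      · refine ⟨F₁, fun k hk => ?_, by omega, by rw [g3]; simp⟩
        have := g1 k hk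
        omega
      · have hn : 2 * r ∉ F₁ := fun h => by
          have := g1 _ h
          omega
        refine ⟨insert (2 * r) F₁, ?_, ?_, ?_⟩
        · intro k hk
          rw [mem_insert] at hk
          rcases hk with rfl | hk
          · omega
          · have := g1 k hk
            omega
        · rw [card_insert_of_notMem hn]
          omega
        · rw [sum_insert hn, g3, cls_even, if_neg (by omega), if_pos hr]
          ring
    obtain ⟨G, hG1, hG2⟩ := exists_subset_card_eq (s := Ico (2 ^ (i + 1)) (2 ^ (i + 4) - 1))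
      (n := ν - F.card) (by rw [Nat.card_Ico]; omega)
    have hd : Disjoint F G := by
      rw [disjoint_left]
      intro k hk hk'
      have a1 := hF1 k hk
      have a2 := mem_Ico.1 (hG1 hk')
      omega
    refine transfer (g := cls N i) (F ∪ G) ?_ ?_ ?_
    · intro k hk
      rcases mem_union.1 hk with h | h
      · have := hF1 k h
        omega
      · exact (mem_Ico.1 (hG1 h)).2
    · rw [card_union_of_disjoint hd, hG2]
      omega
    · rw [sum_union hd, hF3, sum_eq_zero (s := G), add_zero]
      intro k hk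
      exact cls_big N i k (mem_Ico.1 (hG1 hk)).1

end Pool.Agent.N914.AS
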